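import Pool.Agent.U183.RB.Model

set_option autoImplicit false

/-!
# MP_67b4ec_an: the square of the radical of `L¹(G)''` is zero for every compact group `G`

Definitions used by the statement (files `Pool/Agent/H434R3/Arens.lean` and
`Pool/Agent/H434R3/L1Alg.lean`, the same as in the starting result on MP_cecf91_an):

* `L1Alg w A`, here with the constant weight `w = 1`: the normed algebra `A` is `L¹(G)`: the
  classes of the functions which are integrable with respect to the left Haar measure of `G`, with
  the norm `∫ |f| dm` and the convolution product;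
* `Bidual A`: the second dual `A''` with the first Arens product, written `*`;
* `InRad Φ`: `Φ` lies in the Jacobson radical of `A''` (computed in the unitization).

Proof: `L¹(G)` acts on `L²(G)` by right convolution, `R_b ξ = ξ * b`, and `R_b^* = R_{b^*}`.  This
action extends to an (anti-)representation of `(A'', □)` whose range is closed under adjoints, so
that it kills the radical.  For `h ∈ A'` and `a ∈ L²(G)` the functional `b ↦ h (a * b)` is a
coefficient of the representation.  Hence `Ψ · h = 0` for `Ψ` in the radical, and
`(Φ □ Ψ)(h) = Φ (Ψ · h) = 0`.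
-/

namespace Pool.Agent.Results.MP_67b4ec_an.CompactGroups

open H434R3.Arens H434R3.Beurling

universe u v

/-- **Let `G` be a compact group and `A = L¹(G)`.  Then the Jacobson radical of `(A'', □)` is the
right annihilator `{Ψ : Φ □ Ψ = 0 for all Φ ∈ A''}` of `A''`; in particular `Φ □ Ψ = 0` for all
`Φ`, `Ψ` in the radical.** -/
theorem result (G : Type u) [Group G] [TopologicalSpace G] [IsTopologicalGroup G] [CompactSpace G]
    [MeasurableSpace G] [BorelSpace G]
    (A : Type v) [NonUnitalNormedRing A] [NormedSpace ℂ A] [IsScalarTower ℂ A A]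
    [SMulCommClass ℂ A A] (M : L1Alg (fun _ : G => (1 : ℝ)) A) :
    (∀ Ψ : Bidual A, InRad Ψ ↔ ∀ Φ : Bidual A, Φ * Ψ = 0) ∧
      ∀ Φ Ψ : Bidual A, InRad Φ → InRad Ψ → Φ * Ψ = 0 :=
  ⟨Pool.Agent.U183.RB.radical_iff M,
    fun Φ Ψ _ h => (Pool.Agent.U183.RB.radical_iff M Ψ).1 h Φ⟩

end Pool.Agent.Results.MP_67b4ec_an.CompactGroups
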